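import Mathlib
import Pool.Agent.Lib.MP_7fb13b_lc.H9.Basic

/-!
# MP_7fb13b_lc (H31) : row vectors with a skewed Euclidean metric

`bf Q u v = Re (u Q v*)` for row vectors `u, v`, `qf Q u = bf Q u u`, and the same for matrices
(row by row), `mbf Q A C = Re tr (A Q C*)`.  The metric of interest is `Q = (1 + M)⁻¹` with `M`
positive semidefinite.
-/

open Matrix
open scoped ComplexOrder

set_option linter.unusedSectionVars false

namespace RotFourier.H31

variable {ι : Type*} [Fintype ι] [DecidableEq ι]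

/-- Real part of `u Q v*` for row vectors `u`, `v`. -/
noncomputable def bf (Q : Matrix ι ι ℂ) (u v : ι → ℂ) : ℝ := (u ⬝ᵥ (Q *ᵥ star v)).re

/-- The quadratic form `u Q u*`. -/
noncomputable def qf (Q : Matrix ι ι ℂ) (u : ι → ℂ) : ℝ := bf Q u u

/-- `Re tr (A Q C*)`, row by row. -/
noncomputable def mbf (Q A C : Matrix ι ι ℂ) : ℝ := ∑ a, bf Q (A a) (C a)

section Bilinear

variable (Q : Matrix ι ι ℂ) (u u' v v' : ι → ℂ)

lemma bf_add_left : bf Q (u + u') v = bf Q u v + bf Q u' v := by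
  simp [bf, add_dotProduct]

lemma bf_add_right : bf Q u (v + v') = bf Q u v + bf Q u v' := by
  simp [bf, mulVec_add, dotProduct_add]

lemma bf_neg_left : bf Q (-u) v = -bf Q u v := by
  simp [bf]

lemma bf_neg_right : bf Q u (-v) = -bf Q u v := by
  simp [bf, mulVec_neg]

lemma bf_sub_left : bf Q (u - u') v = bf Q u v - bf Q u' v := by
  rw [sub_eq_add_neg, bf_add_left, bf_neg_left, ← sub_eq_add_neg]

lemma bf_sub_right : bf Q u (v - v') = bf Q u v - bf Q u v' := by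
  rw [sub_eq_add_neg, bf_add_right, bf_neg_right, ← sub_eq_add_neg]

lemma bf_smul_left (r : ℝ) : bf Q ((r : ℂ) • u) v = r * bf Q u v := by
  simp [bf, smul_dotProduct]

lemma bf_smul_right (r : ℝ) : bf Q u ((r : ℂ) • v) = r * bf Q u v := by
  simp [bf, mulVec_smul, dotProduct_smul]

lemma bf_symm {Q : Matrix ι ι ℂ} (hQ : Q.IsHermitian) : bf Q u v = bf Q v u := by
  have h : star (u ⬝ᵥ (Q *ᵥ star v)) = v ⬝ᵥ (Q *ᵥ star u) := by
    rw [← Matrix.star_dotProduct_star, Matrix.star_mulVec, star_star, hQ.eq,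
      ← Matrix.dotProduct_mulVec]
  unfold bf
  rw [← h]
  simp

lemma qf_nonneg {Q : Matrix ι ι ℂ} (hQ : Q.PosSemidef) : 0 ≤ qf Q u := by
  have := hQ.dotProduct_mulVec_nonneg (star u)
  rw [star_star] at this
  exact (Complex.le_def.1 this).1

lemma qf_add {Q : Matrix ι ι ℂ} (hQ : Q.IsHermitian) :
    qf Q (u + v) = qf Q u + 2 * bf Q u v + qf Q v := by
  unfold qf
  rw [bf_add_left, bf_add_right, bf_add_right, bf_symm v u hQ]
  ring

lemma qf_sub {Q : Matrix ι ι ℂ} (hQ : Q.IsHermitian) :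
    qf Q (u - v) = qf Q u - 2 * bf Q u v + qf Q v := by
  unfold qf
  rw [bf_sub_left, bf_sub_right, bf_sub_right, bf_symm v u hQ]
  ring

lemma qf_smul (r : ℝ) : qf Q ((r : ℂ) • u) = r ^ 2 * qf Q u := by
  unfold qf
  rw [bf_smul_left, bf_smul_right]
  ring

lemma two_bf_le {Q : Matrix ι ι ℂ} (hQ : Q.PosSemidef) : 2 * bf Q u v ≤ qf Q u + qf Q v := by
  have h := qf_nonneg (u - v) hQ
  rw [qf_sub u v hQ.isHermitian] at h
  linarith

lemma qf_add_le {Q : Matrix ι ι ℂ} (hQ : Q.PosSemidef) :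
    qf Q (u + v) ≤ 2 * qf Q u + 2 * qf Q v := by
  rw [qf_add u v hQ.isHermitian]
  have := two_bf_le u v hQ
  linarith

end Bilinear

section MatrixForm

variable (Q A A' C C' : Matrix ι ι ℂ)

lemma mbf_add_left : mbf Q (A + A') C = mbf Q A C + mbf Q A' C := by
  unfold mbf
  rw [← Finset.sum_add_distrib]
  exact Finset.sum_congr rfl fun a _ => bf_add_left _ _ _ _

lemma mbf_add_right : mbf Q A (C + C') = mbf Q A C + mbf Q A C' := by
  unfold mbf
  rw [← Finset.sum_add_distrib]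
  exact Finset.sum_congr rfl fun a _ => bf_add_right _ _ _ _

lemma mbf_sub_left : mbf Q (A - A') C = mbf Q A C - mbf Q A' C := by
  unfold mbf
  rw [← Finset.sum_sub_distrib]
  exact Finset.sum_congr rfl fun a _ => bf_sub_left _ _ _ _

lemma mbf_sub_right : mbf Q A (C - C') = mbf Q A C - mbf Q A C' := by
  unfold mbf
  rw [← Finset.sum_sub_distrib]
  exact Finset.sum_congr rfl fun a _ => bf_sub_right _ _ _ _

lemma mbf_smul_left (r : ℝ) : mbf Q ((r : ℂ) • A) C = r * mbf Q A C := by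
  unfold mbf
  rw [Finset.mul_sum]
  exact Finset.sum_congr rfl fun a _ => bf_smul_left _ _ _ _

lemma mbf_smul_right (r : ℝ) : mbf Q A ((r : ℂ) • C) = r * mbf Q A C := by
  unfold mbf
  rw [Finset.mul_sum]
  exact Finset.sum_congr rfl fun a _ => bf_smul_right _ _ _ _

lemma mbf_symm {Q : Matrix ι ι ℂ} (hQ : Q.IsHermitian) : mbf Q A C = mbf Q C A :=
  Finset.sum_congr rfl fun _ _ => bf_symm _ _ hQ

lemma mbf_self_eq : mbf Q A A = ∑ a, qf Q (A a) := rfl

lemma mbf_self_nonneg {Q : Matrix ι ι ℂ} (hQ : Q.PosSemidef) : 0 ≤ mbf Q A A :=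
  Finset.sum_nonneg fun _ _ => qf_nonneg _ hQ

lemma mbf_sub_self {Q : Matrix ι ι ℂ} (hQ : Q.IsHermitian) :
    mbf Q (A - C) (A - C) = mbf Q A A - 2 * mbf Q A C + mbf Q C C := by
  rw [mbf_sub_left, mbf_sub_right, mbf_sub_right, mbf_symm C A hQ]
  ring

lemma two_mbf_le {Q : Matrix ι ι ℂ} (hQ : Q.PosSemidef) :
    2 * mbf Q A C ≤ mbf Q A A + mbf Q C C := by
  have h := mbf_self_nonneg (A - C) hQ
  rw [mbf_sub_self A C hQ.isHermitian] at h
  linarith

/-- Weighted Cauchy-Schwarz, both signs. -/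
lemma two_abs_mbf_le {Q : Matrix ι ι ℂ} (hQ : Q.PosSemidef) {s : ℝ} (hs : 0 < s) :
    2 * |mbf Q A C| ≤ s * mbf Q A A + s⁻¹ * mbf Q C C := by
  have key : ∀ σ : ℝ, σ ^ 2 = 1 → 2 * (σ * mbf Q A C) ≤ s * mbf Q A A + s⁻¹ * mbf Q C C := by
    intro σ hσ
    have hs2 : Real.sqrt s ^ 2 = s := Real.sq_sqrt hs.le
    have hsp : 0 < Real.sqrt s := Real.sqrt_pos.2 hs
    have h := two_mbf_le ((Real.sqrt s : ℂ) • A) (((σ * (Real.sqrt s)⁻¹ : ℝ) : ℂ) • C) hQ
    rw [mbf_smul_left, mbf_smul_right, mbf_smul_left, mbf_smul_right, mbf_smul_left,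
      mbf_smul_right] at h
    have e1 : Real.sqrt s * (σ * (Real.sqrt s)⁻¹ * mbf Q A C) = σ * mbf Q A C := by
      field_simp
    have e2 : Real.sqrt s * (Real.sqrt s * mbf Q A A) = s * mbf Q A A := by
      rw [← mul_assoc, ← pow_two, hs2]
    have e3 : σ * (Real.sqrt s)⁻¹ * (σ * (Real.sqrt s)⁻¹ * mbf Q C C) = s⁻¹ * mbf Q C C := by
      rw [← mul_assoc, show σ * (Real.sqrt s)⁻¹ * (σ * (Real.sqrt s)⁻¹) =
        σ ^ 2 * (Real.sqrt s ^ 2)⁻¹ by ring, hσ, hs2, one_mul]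
    rw [e1, e2, e3] at h
    exact h
  rcases abs_cases (mbf Q A C) with ⟨h, _⟩ | ⟨h, _⟩
  · rw [h]
    have := key 1 (by norm_num)
    rwa [one_mul] at this
  · rw [h]
    have := key (-1) (by norm_num)
    rwa [neg_one_mul] at this

lemma mbf_eq_trace : mbf Q A C = ((A * Q * Cᴴ).trace).re := by
  unfold mbf Matrix.trace
  rw [Complex.re_sum]
  refine Finset.sum_congr rfl fun a _ => ?_
  rw [Matrix.diag_apply, Matrix.mul_assoc, Matrix.mul_apply']
  rfl

/-- Invariance under unitary mixing of the rows. -/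
lemma mbf_unitary_mul {U : Matrix ι ι ℂ} (hU : U ∈ Matrix.unitaryGroup ι ℂ) :
    mbf Q (U * A) (U * A) = mbf Q A A := by
  rw [mbf_eq_trace, mbf_eq_trace, Matrix.conjTranspose_mul, Matrix.mul_assoc, Matrix.mul_assoc,
    Matrix.trace_mul_comm, Matrix.mul_assoc, Matrix.mul_assoc, Matrix.mul_assoc Aᴴ Uᴴ U]
  have : Uᴴ * U = 1 := Matrix.mem_unitaryGroup_iff'.1 hU
  rw [this, Matrix.mul_one, ← Matrix.mul_assoc]

/-- A two-coordinate unitary preserves the form of the pair of rows. -/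
lemma qf_pair {R : Matrix ι ι ℂ} {i j : ι} (hR : IsTwo R i j) :
    qf Q ((R * A) i) + qf Q ((R * A) j) = qf Q (A i) + qf Q (A j) := by
  have h1 := mbf_unitary_mul Q A hR.unit
  have h2 : ∀ D : Matrix ι ι ℂ, mbf Q D D =
      (qf Q (D i) + qf Q (D j)) + ∑ a ∈ (Finset.univ \ {i, j} : Finset ι), qf Q (D a) := by
    intro D
    rw [mbf_self_eq, ← Finset.sum_sdiff (Finset.subset_univ ({i, j} : Finset ι)),
      Finset.sum_pair hR.ne, add_comm]
  rw [h2, h2] at h1
  have h3 : ∑ a ∈ (Finset.univ \ {i, j} : Finset ι), qf Q ((R * A) a) =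
      ∑ a ∈ (Finset.univ \ {i, j} : Finset ι), qf Q (A a) := by
    refine Finset.sum_congr rfl fun a ha => ?_
    simp only [Finset.mem_sdiff, Finset.mem_univ, true_and, Finset.mem_insert,
      Finset.mem_singleton, not_or] at ha
    have : (R * A) a = A a := funext fun k => hR.mul_apply_of_ne A ha.1 ha.2 k
    rw [this]
  rw [h3] at h1
  linarith

end MatrixForm

end RotFourier.H31
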