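import Mathlib
import Pool.Agent.Lib.MP_7fb13b_lc.H31.Form

/-!
# MP_7fb13b_lc (H31) : the metric `Q = (1 + M)⁻¹`
-/

open Matrix
open scoped ComplexOrder

set_option linter.unusedSectionVars false

namespace RotFourier.H31

variable {ι : Type*} [Fintype ι] [DecidableEq ι]

/-- The skewed metric. -/
noncomputable def met (M : Matrix ι ι ℂ) : Matrix ι ι ℂ := (1 + M)⁻¹

section

variable {M : Matrix ι ι ℂ}

lemma one_add_posDef (hM : M.PosSemidef) : (1 + M).PosDef :=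
  Matrix.PosDef.one.add_posSemidef hM

lemma met_posDef (hM : M.PosSemidef) : (met M).PosDef := (one_add_posDef hM).inv

lemma met_psd (hM : M.PosSemidef) : (met M).PosSemidef := (met_posDef hM).posSemidef

lemma met_herm (hM : M.PosSemidef) : (met M)ᴴ = met M := (met_psd hM).isHermitian.eq

lemma isUnit_det (hM : M.PosSemidef) : IsUnit (1 + M).det :=
  (Matrix.isUnit_iff_isUnit_det _).1 (one_add_posDef hM).isUnit

lemma met_mul (hM : M.PosSemidef) : met M * (1 + M) = 1 :=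
  Matrix.nonsing_inv_mul _ (isUnit_det hM)

lemma mul_met (hM : M.PosSemidef) : (1 + M) * met M = 1 :=
  Matrix.mul_nonsing_inv _ (isUnit_det hM)

lemma met_eq (hM : M.PosSemidef) : met M = 1 - M * met M := by
  have := mul_met hM
  rw [add_mul, one_mul] at this
  rw [eq_sub_iff_add_eq, this]

lemma met_eq' (hM : M.PosSemidef) : M * met M = 1 - met M := by
  have := met_eq hM
  rw [eq_sub_iff_add_eq] at this
  rw [eq_sub_iff_add_eq, add_comm, this]

lemma qf_one (u : ι → ℂ) : qf (1 : Matrix ι ι ℂ) u = ∑ k, ‖u k‖ ^ 2 := by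
  unfold qf bf
  rw [Matrix.one_mulVec, dotProduct, Complex.re_sum]
  refine Finset.sum_congr rfl fun k _ => ?_
  rw [Pi.star_apply, Complex.star_def, Complex.mul_conj, Complex.normSq_eq_norm_sq,
    Complex.ofReal_re]

/-- `q(u) = |u Q|² + (uQ) M (uQ)*`. -/
lemma qf_met_eq (hM : M.PosSemidef) (u : ι → ℂ) :
    qf (met M) u = qf 1 (u ᵥ* met M) + qf M (u ᵥ* met M) := by
  have h : qf (1 + M) (u ᵥ* met M) = qf (met M) u := by
    unfold qf bf
    rw [Matrix.star_vecMul, met_herm hM, Matrix.mulVec_mulVec, mul_met hM, Matrix.one_mulVec,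
      ← Matrix.dotProduct_mulVec]
  rw [← h]
  unfold qf bf
  rw [Matrix.add_mulVec, dotProduct_add, Complex.add_re]

lemma qf_M_le (hM : M.PosSemidef) (u : ι → ℂ) : qf M (u ᵥ* met M) ≤ qf (met M) u := by
  rw [qf_met_eq hM]
  have := qf_nonneg (u ᵥ* met M) (Matrix.PosSemidef.one (n := ι) (R := ℂ))
  linarith

lemma qf_one_le (hM : M.PosSemidef) (u : ι → ℂ) : qf 1 (u ᵥ* met M) ≤ qf (met M) u := by
  rw [qf_met_eq hM]
  have := qf_nonneg (u ᵥ* met M) hM
  linarith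

/-- `Q ≤ 1`. -/
lemma qf_met_le (hM : M.PosSemidef) (u : ι → ℂ) : qf (met M) u ≤ ∑ k, ‖u k‖ ^ 2 := by
  have h1 : qf (met M) u = bf 1 (u ᵥ* met M) u := by
    unfold qf bf
    rw [Matrix.one_mulVec, Matrix.dotProduct_mulVec]
  have h2 := two_bf_le (u ᵥ* met M) u (Matrix.PosSemidef.one (n := ι) (R := ℂ))
  have h3 := qf_one_le hM u
  rw [← h1] at h2
  rw [← qf_one]
  linarith

lemma mbf_met_le_fro (hM : M.PosSemidef) (A : Matrix ι ι ℂ) : mbf (met M) A A ≤ fro A := by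
  rw [mbf_self_eq]
  exact Finset.sum_le_sum fun a _ => qf_met_le hM (A a)

lemma fro_one : fro (1 : Matrix ι ι ℂ) = Fintype.card ι := by
  rw [fro_eq_trace, Matrix.one_mul, Matrix.conjTranspose_one, Matrix.trace_one]
  simp

lemma mbf_M_M (hM : M.PosSemidef) :
    mbf (met M) M M = M.trace.re - Fintype.card ι + mbf (met M) 1 1 := by
  rw [mbf_eq_trace, mbf_eq_trace, hM.isHermitian.eq, Matrix.one_mul, Matrix.conjTranspose_one,
    Matrix.mul_one, met_eq' hM, Matrix.sub_mul, Matrix.one_mul, Matrix.trace_sub,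
    Matrix.trace_mul_comm (met M) M, met_eq' hM, Matrix.trace_sub, Matrix.trace_one]
  simp only [Complex.sub_re, Complex.natCast_re]
  ring

lemma mbf_one_one_le (hM : M.PosSemidef) : mbf (met M) 1 1 ≤ Fintype.card ι := by
  rw [← fro_one]
  exact mbf_met_le_fro hM 1

lemma le_mbf_one_one (hM : M.PosSemidef) :
    (Fintype.card ι : ℝ) - M.trace.re ≤ mbf (met M) 1 1 := by
  have h := mbf_self_nonneg M (met_psd hM)
  rw [mbf_M_M hM] at h
  linarith

lemma mbf_M_M_le (hM : M.PosSemidef) : mbf (met M) M M ≤ M.trace.re := by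
  rw [mbf_M_M hM]
  have := mbf_one_one_le hM
  linarith

lemma mbf_one_left (hM : M.PosSemidef) (C : Matrix ι ι ℂ) :
    mbf (met M) 1 C = (C.trace).re - mbf (met M) M C := by
  rw [mbf_eq_trace, mbf_eq_trace, Matrix.one_mul, met_eq' hM, Matrix.sub_mul, Matrix.one_mul,
    Matrix.trace_sub, Complex.sub_re, Matrix.trace_conjTranspose]
  simp

/-- If `x* x ≤ lam M` then `x Q x* ≤ lam`. -/
lemma qf_le_of_dom (hM : M.PosSemidef) {lam : ℝ} (hlam : 0 ≤ lam) (x : ι → ℂ)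
    (h : ∀ v : ι → ℂ, ‖x ⬝ᵥ v‖ ^ 2 ≤ lam * (star v ⬝ᵥ (M *ᵥ v)).re) :
    qf (met M) x ≤ lam := by
  set q := qf (met M) x with hq
  have hq0 : 0 ≤ q := qf_nonneg x (met_psd hM)
  have h1 := h (met M *ᵥ star x)
  have h2 : q ≤ ‖x ⬝ᵥ (met M *ᵥ star x)‖ := Complex.re_le_norm _
  have h3 : (star (met M *ᵥ star x) ⬝ᵥ (M *ᵥ (met M *ᵥ star x))).re = qf M (x ᵥ* met M) := by
    unfold qf bf
    rw [Matrix.star_vecMul, met_herm hM, Matrix.star_mulVec, star_star, met_herm hM]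
  rw [h3] at h1
  have h4 := qf_M_le hM x
  have h5 : q ^ 2 ≤ lam * q := by
    calc q ^ 2 ≤ ‖x ⬝ᵥ (met M *ᵥ star x)‖ ^ 2 := pow_le_pow_left₀ hq0 h2 2
      _ ≤ _ := h1
      _ ≤ lam * q := mul_le_mul_of_nonneg_left h4 hlam
  by_contra hcon
  push Not at hcon
  nlinarith

end

end RotFourier.H31
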