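import Mathlib
import Pool.Agent.Lib.MP_7fb13b_lc.H31.Metric

/-!
# MP_7fb13b_lc (H31) : distance to the sup-norm ball in the metric `Q`

`phi Q κ u` is the squared `Q`-distance of the row vector `u` to the sup-norm ball of radius `κ`,
and `pj Q κ u` a nearest point.
-/

open Matrix
open scoped ComplexOrder

set_option linter.unusedSectionVars false

namespace RotFourier.H31

variable {ι : Type*} [Fintype ι] [DecidableEq ι]

/-- The sup-norm ball. -/
def box (κ : ℝ) : Set (ι → ℂ) := {y | ∀ k, ‖y k‖ ≤ κ}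

lemma zero_mem_box {κ : ℝ} (hκ : 0 ≤ κ) : (0 : ι → ℂ) ∈ box κ := by
  intro k; simpa using hκ

lemma isCompact_box (κ : ℝ) : IsCompact (box κ : Set (ι → ℂ)) := by
  have h : (box κ : Set (ι → ℂ)) = Set.pi Set.univ fun _ => Metric.closedBall (0 : ℂ) κ := by
    ext y
    simp [box, Set.mem_pi]
  rw [h]
  exact isCompact_univ_pi fun _ => isCompact_closedBall _ _

lemma continuous_qf_sub (Q : Matrix ι ι ℂ) (u : ι → ℂ) :
    Continuous fun y : ι → ℂ => qf Q (u - y) := by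
  unfold qf bf
  simp only [dotProduct, Matrix.mulVec, Pi.sub_apply, Pi.star_apply]
  fun_prop

lemma exists_proj (Q : Matrix ι ι ℂ) {κ : ℝ} (hκ : 0 ≤ κ) (u : ι → ℂ) :
    ∃ y ∈ (box κ : Set (ι → ℂ)), ∀ z ∈ (box κ : Set (ι → ℂ)), qf Q (u - y) ≤ qf Q (u - z) := by
  obtain ⟨y, hy, h⟩ := (isCompact_box κ).exists_isMinOn ⟨0, zero_mem_box hκ⟩
    (continuous_qf_sub Q u).continuousOn
  exact ⟨y, hy, fun z hz => h hz⟩

open Classical in
/-- A nearest point of the sup-norm ball of radius `κ`. -/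
noncomputable def pj (Q : Matrix ι ι ℂ) (κ : ℝ) (u : ι → ℂ) : ι → ℂ :=
  if h : ∃ y ∈ (box κ : Set (ι → ℂ)), ∀ z ∈ (box κ : Set (ι → ℂ)),
    qf Q (u - y) ≤ qf Q (u - z) then h.choose else 0

/-- Squared distance to the sup-norm ball of radius `κ`. -/
noncomputable def phi (Q : Matrix ι ι ℂ) (κ : ℝ) (u : ι → ℂ) : ℝ := qf Q (u - pj Q κ u)

section

variable {Q : Matrix ι ι ℂ} {κ : ℝ}

lemma pj_mem (hκ : 0 ≤ κ) (u : ι → ℂ) : pj Q κ u ∈ (box κ : Set (ι → ℂ)) := by
  have h := exists_proj Q hκ u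
  unfold pj
  rw [dif_pos h]
  exact h.choose_spec.1

lemma norm_pj_le (hκ : 0 ≤ κ) (u : ι → ℂ) (k : ι) : ‖pj Q κ u k‖ ≤ κ := pj_mem hκ u k

lemma phi_le (hκ : 0 ≤ κ) (u : ι → ℂ) {z : ι → ℂ} (hz : z ∈ (box κ : Set (ι → ℂ))) :
    phi Q κ u ≤ qf Q (u - z) := by
  have h := exists_proj Q hκ u
  unfold phi pj
  rw [dif_pos h]
  exact h.choose_spec.2 z hz

lemma phi_nonneg (hQ : Q.PosSemidef) (u : ι → ℂ) : 0 ≤ phi Q κ u := qf_nonneg _ hQ

/-- Variational inequality. -/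
lemma pj_var (hQ : Q.PosSemidef) (hκ : 0 ≤ κ) (u : ι → ℂ) {z : ι → ℂ}
    (hz : z ∈ (box κ : Set (ι → ℂ))) : bf Q (u - pj Q κ u) (z - pj Q κ u) ≤ 0 := by
  set y := pj Q κ u with hy
  have hy' : ∀ k, ‖y k‖ ≤ κ := norm_pj_le hκ u
  -- convex combination
  have key : ∀ s : ℝ, 0 < s → s ≤ 1 → 2 * bf Q (u - y) (z - y) ≤ s * qf Q (z - y) := by
    intro s hs hs1
    have hmem : (y + (s : ℂ) • (z - y)) ∈ (box κ : Set (ι → ℂ)) := by
      intro k
      have e : (y + (s : ℂ) • (z - y)) k = ((1 - s : ℝ) : ℂ) * y k + (s : ℂ) * z k := by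
        simp only [Pi.add_apply, Pi.smul_apply, Pi.sub_apply, smul_eq_mul]
        push_cast; ring
      rw [e]
      refine (norm_add_le _ _).trans ?_
      rw [norm_mul, norm_mul, Complex.norm_real, Complex.norm_real, Real.norm_eq_abs,
        Real.norm_eq_abs, abs_of_pos hs, abs_of_nonneg (by linarith)]
      have h1 := hy' k
      have h2 : ‖z k‖ ≤ κ := hz k
      calc (1 - s) * ‖y k‖ + s * ‖z k‖ ≤ (1 - s) * κ + s * κ :=
            add_le_add (mul_le_mul_of_nonneg_left h1 (by linarith))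
              (mul_le_mul_of_nonneg_left h2 hs.le)
        _ = κ := by ring
    have h := phi_le (Q := Q) hκ u hmem
    have e2 : u - (y + (s : ℂ) • (z - y)) = (u - y) - (s : ℂ) • (z - y) := by abel
    rw [e2, qf_sub _ _ hQ.isHermitian, bf_smul_right, qf_smul] at h
    unfold phi at h
    rw [← hy] at h
    have h3 : s * (2 * bf Q (u - y) (z - y)) ≤ s * (s * qf Q (z - y)) := by nlinarith
    exact le_of_mul_le_mul_left h3 hs
  by_contra hcon
  push Not at hcon
  set b := bf Q (u - y) (z - y) with hb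
  have hq : 0 ≤ qf Q (z - y) := qf_nonneg _ hQ
  -- choose s small
  have hs : 0 < b / (qf Q (z - y) + b) := by positivity
  have hs1 : b / (qf Q (z - y) + b) ≤ 1 := by
    rw [div_le_one (by positivity)]; linarith
  have h := key _ hs hs1
  have h2 : b / (qf Q (z - y) + b) * qf Q (z - y) ≤ b := by
    rw [div_mul_eq_mul_div, div_le_iff₀ (by positivity)]
    nlinarith
  linarith

/-- Subgradient inequality. -/
lemma phi_subgrad (hQ : Q.PosSemidef) (hκ : 0 ≤ κ) (u v : ι → ℂ) :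
    phi Q κ u + 2 * bf Q (v - u) (u - pj Q κ u) ≤ phi Q κ v := by
  have h1 := pj_var hQ hκ u (pj_mem (Q := Q) hκ v)
  set y := pj Q κ u with hy
  set z := pj Q κ v with hz
  have e : v - z = (u - y) + ((v - u) + (y - z)) := by abel
  unfold phi
  rw [← hz, e, qf_add _ _ hQ.isHermitian, bf_add_right, ← hy]
  have h2 : bf Q (u - y) (y - z) = -bf Q (u - y) (z - y) := by
    rw [← neg_sub z y, bf_neg_right]
  have h3 := qf_nonneg ((v - u) + (y - z)) hQ
  rw [bf_symm (v - u) (u - y) hQ.isHermitian]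
  linarith

/-- The projection is `1`-Lipschitz. -/
lemma pj_lipschitz (hQ : Q.PosSemidef) (hκ : 0 ≤ κ) (u v : ι → ℂ) :
    qf Q (pj Q κ u - pj Q κ v) ≤ qf Q (u - v) := by
  have h1 := pj_var hQ hκ u (pj_mem (Q := Q) hκ v)
  have h2 := pj_var hQ hκ v (pj_mem (Q := Q) hκ u)
  set y := pj Q κ u with hy
  set z := pj Q κ v with hz
  have h3 : bf Q (u - y) (z - y) = -bf Q (u - y) (y - z) := by
    rw [← neg_sub y z, bf_neg_right]
  have h4 : bf Q (u - y) (y - z) - bf Q (v - z) (y - z) =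
      bf Q (u - v) (y - z) - qf Q (y - z) := by
    unfold qf
    rw [← bf_sub_left, ← bf_sub_left]
    congr 1
    abel
  have h5 := two_bf_le (u - v) (y - z) hQ
  linarith

/-- Monotonicity under a two-coordinate unitary, when the radius grows by `√2`. -/
lemma phi_pair_le {R : Matrix ι ι ℂ} {i j : ι} (hR : IsTwo R i j)
    (hκ : 0 ≤ κ) {κ' : ℝ} (hκ' : 0 ≤ κ') (h : 2 * κ ^ 2 ≤ κ' ^ 2) (A : Matrix ι ι ℂ) :
    phi Q κ' ((R * A) i) + phi Q κ' ((R * A) j) ≤ phi Q κ (A i) + phi Q κ (A j) := by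
  -- the matrix of nearest points
  set Y : Matrix ι ι ℂ := fun a => pj Q κ (A a) with hY
  have hYn : ∀ a k, ‖Y a k‖ ≤ κ := fun a k => norm_pj_le hκ (A a) k
  have hmem : ∀ a : ι, a = i ∨ a = j → (R * Y) a ∈ (box κ' : Set (ι → ℂ)) := by
    intro a ha k
    have h1 : ‖(R * Y) a k‖ ^ 2 ≤ pairSq (R * Y) i j k := by
      unfold pairSq
      rcases ha with rfl | rfl
      · linarith [sq_nonneg ‖(R * Y) j k‖]
      · linarith [sq_nonneg ‖(R * Y) i k‖]
    rw [hR.pairSq_mul Y k] at h1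
    have h2 : pairSq Y i j k ≤ 2 * κ ^ 2 := by
      unfold pairSq
      have := pow_le_pow_left₀ (norm_nonneg _) (hYn i k) 2
      have := pow_le_pow_left₀ (norm_nonneg _) (hYn j k) 2
      linarith
    exact le_of_sq_le_sq (by linarith) hκ'
  have h1 := phi_le (Q := Q) hκ' ((R * A) i) (hmem i (Or.inl rfl))
  have h2 := phi_le (Q := Q) hκ' ((R * A) j) (hmem j (Or.inr rfl))
  have h3 := qf_pair Q (A - Y) hR
  rw [Matrix.mul_sub] at h3
  have e1 : ∀ a, (R * A - R * Y) a = (R * A) a - (R * Y) a := fun a => rfl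
  have e2 : ∀ a, (A - Y) a = A a - pj Q κ (A a) := fun a => rfl
  rw [e1, e1, e2, e2] at h3
  unfold phi at h1 h2 ⊢
  linarith

end

end RotFourier.H31
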