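import Mathlib
import Pool.Agent.Lib.MP_7fb13b_lc.H9.Trunc
import Pool.Agent.Lib.MP_7fb13b_lc.H31.Metric

/-!
# MP_7fb13b_lc (H31) : Gram domination

Along a sequence of gates, the Gram forms `v ↦ ‖χ(B t) v‖²` of the entrywise truncations are all
dominated by one positive semidefinite matrix of small trace.
-/

open Matrix
open scoped ComplexOrder

set_option linter.unusedSectionVars false

namespace RotFourier.H31

variable {ι : Type*} [Fintype ι] [DecidableEq ι]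

/-- `‖A v‖²`. -/
noncomputable def nv (A : Matrix ι ι ℂ) (v : ι → ℂ) : ℝ := ∑ a, ‖(A *ᵥ v) a‖ ^ 2

/-- `v* W v`. -/
noncomputable def cf (W : Matrix ι ι ℂ) (v : ι → ℂ) : ℝ := (star v ⬝ᵥ (W *ᵥ v)).re

lemma cf_nonneg {W : Matrix ι ι ℂ} (hW : W.PosSemidef) (v : ι → ℂ) : 0 ≤ cf W v :=
  (Complex.le_def.1 (hW.dotProduct_mulVec_nonneg v)).1

lemma cf_add (W W' : Matrix ι ι ℂ) (v : ι → ℂ) : cf (W + W') v = cf W v + cf W' v := by
  simp [cf, Matrix.add_mulVec, dotProduct_add]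

lemma cf_smul (r : ℝ) (W : Matrix ι ι ℂ) (v : ι → ℂ) : cf ((r : ℂ) • W) v = r * cf W v := by
  simp [cf, Matrix.smul_mulVec, dotProduct_smul]

lemma cf_gram (A : Matrix ι ι ℂ) (v : ι → ℂ) : cf (Aᴴ * A) v = nv A v := by
  unfold cf nv
  rw [← Matrix.mulVec_mulVec, Matrix.dotProduct_mulVec, ← Matrix.star_mulVec, dotProduct,
    Complex.re_sum]
  refine Finset.sum_congr rfl fun a _ => ?_
  rw [Pi.star_apply, Complex.star_def, mul_comm, Complex.mul_conj, Complex.normSq_eq_norm_sq,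
    Complex.ofReal_re]

lemma nv_unitary {U : Matrix ι ι ℂ} (hU : U ∈ Matrix.unitaryGroup ι ℂ) (A : Matrix ι ι ℂ)
    (v : ι → ℂ) : nv (U * A) v = nv A v := by
  rw [← cf_gram, ← cf_gram, Matrix.conjTranspose_mul, Matrix.mul_assoc, ← Matrix.mul_assoc Uᴴ U A]
  have : Uᴴ * U = 1 := Matrix.mem_unitaryGroup_iff'.1 hU
  rw [this, Matrix.one_mul]

lemma trace_gram (A : Matrix ι ι ℂ) : (Aᴴ * A).trace.re = fro A := by
  rw [fro_eq_trace, Matrix.trace_mul_comm]

lemma psd_smul {r : ℝ} (hr : 0 ≤ r) {W : Matrix ι ι ℂ} (hW : W.PosSemidef) :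
    ((r : ℂ) • W).PosSemidef :=
  hW.smul (by exact_mod_cast hr)

lemma sq_norm_add_le (p e : ℂ) {δ : ℝ} (hδ : 0 < δ) :
    ‖p + e‖ ^ 2 ≤ ‖p‖ ^ 2 + δ * ‖p‖ ^ 2 + (1 + δ⁻¹) * ‖e‖ ^ 2 := by
  have h1 : ‖p + e‖ ^ 2 ≤ (‖p‖ + ‖e‖) ^ 2 := pow_le_pow_left₀ (norm_nonneg _) (norm_add_le _ _) 2
  have h2 : 2 * (‖p‖ * ‖e‖) ≤ δ * ‖p‖ ^ 2 + δ⁻¹ * ‖e‖ ^ 2 := by
    have := sq_nonneg (Real.sqrt δ * ‖p‖ - (Real.sqrt δ)⁻¹ * ‖e‖)
    have hs : Real.sqrt δ ^ 2 = δ := Real.sq_sqrt hδ.le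
    have hsp : 0 < Real.sqrt δ := Real.sqrt_pos.2 hδ
    have e1 : (Real.sqrt δ * ‖p‖ - (Real.sqrt δ)⁻¹ * ‖e‖) ^ 2 =
        Real.sqrt δ ^ 2 * ‖p‖ ^ 2 + (Real.sqrt δ ^ 2)⁻¹ * ‖e‖ ^ 2 -
        2 * (Real.sqrt δ * (Real.sqrt δ)⁻¹) * (‖p‖ * ‖e‖) := by ring
    rw [e1, hs, mul_inv_cancel₀ hsp.ne'] at this
    linarith
  nlinarith

/-- The two active rows of `A`. -/
def act (i j : ι) (A : Matrix ι ι ℂ) : Matrix ι ι ℂ :=
  Matrix.of fun a k => if a = i ∨ a = j then A a k else 0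

lemma act_mulVec (i j : ι) (A : Matrix ι ι ℂ) (v : ι → ℂ) (a : ι) :
    (act i j A *ᵥ v) a = if a = i ∨ a = j then (A *ᵥ v) a else 0 := by
  unfold act Matrix.mulVec dotProduct
  split_ifs with h
  · simp [h]
  · simp [h]

lemma fro_of_zero {i j : ι} (hij : i ≠ j) (A : Matrix ι ι ℂ)
    (h : ∀ a, a ≠ i → a ≠ j → ∀ k, A a k = 0) : fro A = rowSq A i + rowSq A j := by
  unfold fro
  rw [← Finset.sum_sdiff (Finset.subset_univ ({i, j} : Finset ι)), Finset.sum_pair hij,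
    Finset.sum_eq_zero, zero_add]
  intro a ha
  simp only [Finset.mem_sdiff, Finset.mem_univ, true_and, Finset.mem_insert,
    Finset.mem_singleton, not_or] at ha
  unfold rowSq
  exact Finset.sum_eq_zero fun k _ => by rw [h a ha.1 ha.2 k]; simp

lemma fro_act {i j : ι} (hij : i ≠ j) (A : Matrix ι ι ℂ) :
    fro (act i j A) = rowSq A i + rowSq A j := by
  rw [fro_of_zero hij]
  · unfold act rowSq
    simp
  · intro a hi hj k
    unfold act
    simp [hi, hj]

/-- The increment of the Gram form at one gate. -/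
lemma nv_step {R : Matrix ι ι ℂ} {i j : ι} (hR : IsTwo R i j) (w : ℝ → ℝ) (B : Matrix ι ι ℂ)
    {δ : ℝ} (hδ : 0 < δ) (v : ι → ℂ) :
    nv (trM w (R * B)) v ≤ nv (trM w B) v + (δ * nv (act i j (R * trM w B)) v +
      (1 + δ⁻¹) * nv (trM w (R * B) - R * trM w B) v) := by
  rw [← nv_unitary hR.unit (trM w B) v]
  unfold nv
  rw [Finset.mul_sum, Finset.mul_sum, ← Finset.sum_add_distrib, ← Finset.sum_add_distrib]
  refine Finset.sum_le_sum fun a _ => ?_
  have e : (trM w (R * B) *ᵥ v) a =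
      ((R * trM w B) *ᵥ v) a + ((trM w (R * B) - R * trM w B) *ᵥ v) a := by
    rw [← Pi.add_apply, ← Matrix.add_mulVec, add_sub_cancel]
  rw [act_mulVec]
  split_ifs with h
  · rw [e]
    have := sq_norm_add_le (((R * trM w B) *ᵥ v) a) (((trM w (R * B) - R * trM w B) *ᵥ v) a) hδ
    linarith
  · push Not at h
    have h0 : ((trM w (R * B) - R * trM w B) *ᵥ v) a = 0 := by
      unfold Matrix.mulVec dotProduct
      refine Finset.sum_eq_zero fun k _ => ?_
      have h3 := comm_of_ne hR w B h.1 h.2 k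
      beta_reduce
      rw [h3, zero_mul]
    rw [e, h0]
    simp

/-- All Gram forms of the truncations are dominated by one matrix of small trace. -/
theorem exists_dom {B R : ℕ → Matrix ι ι ℂ} {i j : ℕ → ι} {w : ℝ → ℝ} {L : ℝ} (hw : IsWt L w)
    {δ : ℝ} (hδ : 0 < δ) (h0 : trM w (B 0) = 0) (m : ℕ)
    (hR : ∀ t < m, IsTwo (R t) (i t) (j t)) (hB : ∀ t < m, B (t + 1) = R t * B t)
    (hrow : ∀ t ≤ m, ∀ a, rowSq (B t) a ≤ 1) :
    ∃ W : Matrix ι ι ℂ, W.PosSemidef ∧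
      W.trace.re ≤ m * (2 * δ + (1 + δ⁻¹) * (2 * (5 * L) ^ 2)) ∧
      ∀ t ≤ m, ∀ v, nv (trM w (B t)) v ≤ cf W v := by
  induction m with
  | zero =>
    refine ⟨0, Matrix.PosSemidef.zero, by simp, ?_⟩
    intro t ht v
    obtain rfl : t = 0 := by omega
    rw [h0]
    simp [nv, cf]
  | succ m ih =>
    obtain ⟨W, hW, htr, hdom⟩ := ih (fun t ht => hR t (by omega)) (fun t ht => hB t (by omega))
      (fun t ht => hrow t (by omega))
    have hRm := hR m (by omega)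
    set X := trM w (B m) with hX
    set E := trM w (R m * B m) - R m * X with hE
    set A := act (i m) (j m) (R m * X) with hA
    have hinv : 0 ≤ 1 + δ⁻¹ := by positivity
    set T : Matrix ι ι ℂ := (δ : ℂ) • (Aᴴ * A) + ((1 + δ⁻¹ : ℝ) : ℂ) • (Eᴴ * E) with hT
    have hTpsd : T.PosSemidef :=
      (psd_smul hδ.le (Matrix.posSemidef_conjTranspose_mul_self A)).add
        (psd_smul hinv (Matrix.posSemidef_conjTranspose_mul_self E))
    have hTcf : ∀ v, cf T v = δ * nv A v + (1 + δ⁻¹) * nv E v := by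
      intro v
      rw [hT, cf_add, cf_smul, cf_smul, cf_gram, cf_gram]
    have hTtr : T.trace.re ≤ 2 * δ + (1 + δ⁻¹) * (2 * (5 * L) ^ 2) := by
      have e1 : T.trace.re = δ * fro A + (1 + δ⁻¹) * fro E := by
        rw [hT, Matrix.trace_add, Matrix.trace_smul, Matrix.trace_smul, Complex.add_re,
          smul_eq_mul, smul_eq_mul, Complex.re_ofReal_mul, Complex.re_ofReal_mul, trace_gram,
          trace_gram]
      have e2 : fro A ≤ 2 := by
        rw [hA, fro_act hRm.ne, ← sum_pairSq,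
          Finset.sum_congr rfl fun k _ => hRm.pairSq_mul X k, sum_pairSq]
        have h1 := (hw.rowSq_trM_le (B m) (i m)).trans (hrow m (by omega) (i m))
        have h2 := (hw.rowSq_trM_le (B m) (j m)).trans (hrow m (by omega) (j m))
        linarith
      have e3 : fro E ≤ 2 * (5 * L) ^ 2 := by
        rw [hE, fro_of_zero hRm.ne _ (fun a hi hj k => comm_of_ne hRm w (B m) hi hj k)]
        have h1 := rowSq_comm_le hRm hw (B m) (hrow m (by omega)) (i m)
        have h2 := rowSq_comm_le hRm hw (B m) (hrow m (by omega)) (j m)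
        linarith
      rw [e1]
      have := mul_le_mul_of_nonneg_left e2 hδ.le
      have := mul_le_mul_of_nonneg_left e3 hinv
      linarith
    refine ⟨W + T, hW.add hTpsd, ?_, ?_⟩
    · rw [Matrix.trace_add, Complex.add_re]
      push_cast
      linarith
    · intro t ht v
      rw [cf_add]
      rcases Nat.lt_or_ge t (m + 1) with h | h
      · have := hdom t (by omega) v
        have := cf_nonneg hTpsd v
        linarith
      · obtain rfl : t = m + 1 := by omega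
        rw [hB m (by omega), hTcf v]
        have h1 := nv_step hRm w (B m) hδ v
        have h2 := hdom m le_rfl v
        linarith

/-- A row of `A` in terms of `nv`. -/
lemma row_dot_le (A : Matrix ι ι ℂ) (a : ι) (v : ι → ℂ) : ‖A a ⬝ᵥ v‖ ^ 2 ≤ nv A v := by
  unfold nv
  exact Finset.single_le_sum (f := fun a => ‖(A *ᵥ v) a‖ ^ 2) (fun b _ => by positivity)
    (Finset.mem_univ a)

end RotFourier.H31
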