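import Mathlib
import Pool.Agent.Lib.MP_7fb13b_lc.H31.Box

/-!
# MP_7fb13b_lc (H31) : the potential and its change under one gate
-/

open Matrix
open scoped ComplexOrder

set_option linter.unusedSectionVars false

namespace RotFourier.H31

variable {ι : Type*} [Fintype ι] [DecidableEq ι]

/-- Sum of the squared distances to the sup-norm balls of radii `κ 1, ..., κ K`. -/
noncomputable def Phi (Q : Matrix ι ι ℂ) (κ : ℕ → ℝ) (K : ℕ) (u : ι → ℂ) : ℝ :=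
  ∑ r ∈ Finset.range K, phi Q (κ (r + 1)) u

/-- Sum over the rows. -/
noncomputable def MPhi (Q : Matrix ι ι ℂ) (κ : ℕ → ℝ) (K : ℕ) (A : Matrix ι ι ℂ) : ℝ :=
  ∑ a, Phi Q κ K (A a)

/-- The potential of a pair of matrices. -/
noncomputable def TT (Q : Matrix ι ι ℂ) (κ : ℕ → ℝ) (K : ℕ) (ε : ℝ) (A B : Matrix ι ι ℂ) : ℝ :=
  MPhi Q κ K (B + (ε : ℂ) • A) - MPhi Q κ K (B - (ε : ℂ) • A)

section

variable {Q : Matrix ι ι ℂ} {κ : ℕ → ℝ} {K : ℕ}

lemma Phi_pair_le {R : Matrix ι ι ℂ} {i j : ι} (hQ : Q.PosSemidef) (hR : IsTwo R i j)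
    (hκ : ∀ r, 0 ≤ κ r) (h : ∀ r, 2 * κ r ^ 2 ≤ κ (r + 1) ^ 2) (A : Matrix ι ι ℂ) :
    Phi Q κ K ((R * A) i) + Phi Q κ K ((R * A) j) ≤
      Phi Q κ K (A i) + Phi Q κ K (A j) + (phi Q (κ 0) (A i) + phi Q (κ 0) (A j)) := by
  unfold Phi
  rw [← Finset.sum_add_distrib, ← Finset.sum_add_distrib]
  have h1 : ∑ r ∈ Finset.range K, (phi Q (κ (r + 1)) ((R * A) i) + phi Q (κ (r + 1)) ((R * A) j))
      ≤ ∑ r ∈ Finset.range K, (phi Q (κ r) (A i) + phi Q (κ r) (A j)) :=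
    Finset.sum_le_sum fun r _ => phi_pair_le hR (hκ r) (hκ (r + 1)) (h r) A
  have h2 := Finset.sum_range_succ (fun r => phi Q (κ r) (A i) + phi Q (κ r) (A j)) K
  have h3 := Finset.sum_range_succ' (fun r => phi Q (κ r) (A i) + phi Q (κ r) (A j)) K
  have h4 : 0 ≤ phi Q (κ K) (A i) := phi_nonneg hQ _
  have h5 : 0 ≤ phi Q (κ K) (A j) := phi_nonneg hQ _
  linarith

lemma sum_split (f g : ι → ℝ) {i j : ι} (hij : i ≠ j) (h : ∀ a, a ≠ i → a ≠ j → f a = g a) :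
    ∑ a, f a - ∑ a, g a = (f i + f j) - (g i + g j) := by
  rw [← Finset.sum_sdiff (Finset.subset_univ ({i, j} : Finset ι)), Finset.sum_pair hij,
    ← Finset.sum_sdiff (Finset.subset_univ ({i, j} : Finset ι)), Finset.sum_pair hij]
  have : ∑ a ∈ (Finset.univ \ {i, j} : Finset ι), f a =
      ∑ a ∈ (Finset.univ \ {i, j} : Finset ι), g a := by
    refine Finset.sum_congr rfl fun a ha => ?_
    simp only [Finset.mem_sdiff, Finset.mem_univ, true_and, Finset.mem_insert,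
      Finset.mem_singleton, not_or] at ha
    exact h a ha.1 ha.2
  rw [this]
  ring

lemma MPhi_mul_le {R : Matrix ι ι ℂ} {i j : ι} (hQ : Q.PosSemidef) (hR : IsTwo R i j)
    (hκ : ∀ r, 0 ≤ κ r) (h : ∀ r, 2 * κ r ^ 2 ≤ κ (r + 1) ^ 2) (A : Matrix ι ι ℂ) :
    MPhi Q κ K (R * A) ≤ MPhi Q κ K A + (phi Q (κ 0) (A i) + phi Q (κ 0) (A j)) := by
  have h1 := sum_split (fun a => Phi Q κ K ((R * A) a)) (fun a => Phi Q κ K (A a)) hR.ne
    (fun a hi hj => by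
      have : (R * A) a = A a := funext fun k => hR.mul_apply_of_ne A hi hj k
      simp only [this])
  have h2 := Phi_pair_le (K := K) hQ hR hκ h A
  unfold MPhi
  linarith

/-- The inverse of a two-coordinate unitary. -/
lemma isTwo_conjTranspose {R : Matrix ι ι ℂ} {i j : ι} (hR : IsTwo R i j) : IsTwo Rᴴ i j := by
  have hsymm : ∀ a b, (1 : Matrix ι ι ℂ) a b = star ((1 : Matrix ι ι ℂ) b a) := by
    intro a b
    rw [← Matrix.conjTranspose_apply, Matrix.conjTranspose_one]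
  refine ⟨hR.ne, ?_, ?_, ?_⟩
  · exact Matrix.mem_unitaryGroup_iff.2 (by
      have := Matrix.mem_unitaryGroup_iff'.1 hR.unit
      rw [Matrix.star_eq_conjTranspose, Matrix.conjTranspose_conjTranspose]
      exact this)
  · intro a hi hj b
    rw [Matrix.conjTranspose_apply, hR.col a hi hj b, ← hsymm]
  · intro b hi hj a
    rw [Matrix.conjTranspose_apply, hR.row b hi hj a, ← hsymm]

/-- One gate changes the potential by the level-zero distances of the four active rows. -/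
lemma TT_gate {R : Matrix ι ι ℂ} {i j : ι} (hQ : Q.PosSemidef) (hR : IsTwo R i j)
    (hκ : ∀ r, 0 ≤ κ r) (h : ∀ r, 2 * κ r ^ 2 ≤ κ (r + 1) ^ 2) (ε : ℝ) (A B : Matrix ι ι ℂ) :
    TT Q κ K ε (R * A) (R * B) ≤ TT Q κ K ε A B +
      ((phi Q (κ 0) ((B + (ε : ℂ) • A) i) + phi Q (κ 0) ((B + (ε : ℂ) • A) j)) +
      (phi Q (κ 0) ((R * B - (ε : ℂ) • (R * A)) i) +
        phi Q (κ 0) ((R * B - (ε : ℂ) • (R * A)) j))) := by
  have h1 := MPhi_mul_le (K := K) hQ hR hκ h (B + (ε : ℂ) • A)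
  have h2 := MPhi_mul_le (K := K) hQ (isTwo_conjTranspose hR) hκ h (R * B - (ε : ℂ) • (R * A))
  have e1 : R * (B + (ε : ℂ) • A) = R * B + (ε : ℂ) • (R * A) := by
    rw [Matrix.mul_add, Matrix.mul_smul]
  have e2 : Rᴴ * (R * B - (ε : ℂ) • (R * A)) = B - (ε : ℂ) • A := by
    have : Rᴴ * R = 1 := Matrix.mem_unitaryGroup_iff'.1 hR.unit
    rw [Matrix.mul_sub, Matrix.mul_smul, ← Matrix.mul_assoc, ← Matrix.mul_assoc, this,
      Matrix.one_mul, Matrix.one_mul]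
  rw [e1] at h1
  rw [e2] at h2
  unfold TT
  linarith

/-- Level-zero distance of a row `b ± ε a` when `b` is close to a vector of small norm. -/
lemma phi_row_le {M : Matrix ι ι ℂ} (hM : M.PosSemidef) {κ₀ lam ε : ℝ} (hκ : 0 ≤ κ₀)
    {a b x : ι → ℂ} (ha : ∑ k, ‖a k‖ ^ 2 ≤ 1) (hx : qf (met M) x ≤ lam)
    (hbx : ∀ k, ‖b k - x k‖ ≤ κ₀) {σ : ℝ} (hσ : σ ^ 2 = ε ^ 2) :
    phi (met M) κ₀ (b + (σ : ℂ) • a) ≤ 2 * (lam + ε ^ 2) := by
  have hmem : (b - x) ∈ (box κ₀ : Set (ι → ℂ)) := fun k => hbx k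
  have h1 := phi_le (Q := met M) hκ (b + (σ : ℂ) • a) hmem
  have e : b + (σ : ℂ) • a - (b - x) = x + (σ : ℂ) • a := by abel
  rw [e] at h1
  have h2 := qf_add_le x ((σ : ℂ) • a) (met_psd hM)
  rw [qf_smul, hσ] at h2
  have h3 : qf (met M) a ≤ 1 := (qf_met_le hM a).trans ha
  nlinarith [sq_nonneg ε]

end

end RotFourier.H31
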