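import Mathlib
import Pool.Agent.Lib.MP_7fb13b_lc.H31.Pot

/-!
# MP_7fb13b_lc (H31) : the total change of the potential
-/

open Matrix
open scoped ComplexOrder

set_option linter.unusedSectionVars false

namespace RotFourier.H31

variable {ι : Type*} [Fintype ι] [DecidableEq ι]

/-- Sum over the rows of the squared distances to the sup-norm ball. -/
noncomputable def mphi (Q : Matrix ι ι ℂ) (κ : ℝ) (A : Matrix ι ι ℂ) : ℝ := ∑ a, phi Q κ (A a)

/-- Matrix of the nearest points. -/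
noncomputable def mpj (Q : Matrix ι ι ℂ) (κ : ℝ) (A : Matrix ι ι ℂ) : Matrix ι ι ℂ :=
  fun a => pj Q κ (A a)

lemma MPhi_eq (Q : Matrix ι ι ℂ) (κ : ℕ → ℝ) (K : ℕ) (A : Matrix ι ι ℂ) :
    MPhi Q κ K A = ∑ r ∈ Finset.range K, mphi Q (κ (r + 1)) A := by
  unfold MPhi Phi mphi
  rw [Finset.sum_comm]

section

variable {Q : Matrix ι ι ℂ} {κ : ℝ}

lemma mphi_eq (A : Matrix ι ι ℂ) : mphi Q κ A = mbf Q (A - mpj Q κ A) (A - mpj Q κ A) := rfl

lemma mphi_le (hκ : 0 ≤ κ) (A Z : Matrix ι ι ℂ) (hZ : ∀ a k, ‖Z a k‖ ≤ κ) :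
    mphi Q κ A ≤ mbf Q (A - Z) (A - Z) :=
  Finset.sum_le_sum fun a _ => phi_le hκ (A a) (z := Z a) (hZ a)

lemma mphi_subgrad (hQ : Q.PosSemidef) (hκ : 0 ≤ κ) (A B : Matrix ι ι ℂ) :
    mphi Q κ A + 2 * mbf Q (B - A) (A - mpj Q κ A) ≤ mphi Q κ B := by
  unfold mphi mbf
  rw [Finset.mul_sum, ← Finset.sum_add_distrib]
  exact Finset.sum_le_sum fun a _ => phi_subgrad hQ hκ (A a) (B a)

lemma mpj_lipschitz (hQ : Q.PosSemidef) (hκ : 0 ≤ κ) (A B : Matrix ι ι ℂ) :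
    mbf Q (mpj Q κ A - mpj Q κ B) (mpj Q κ A - mpj Q κ B) ≤ mbf Q (A - B) (A - B) :=
  Finset.sum_le_sum fun a _ => pj_lipschitz hQ hκ (A a) (B a)

lemma norm_mpj_le (hκ : 0 ≤ κ) (A : Matrix ι ι ℂ) (a k : ι) : ‖mpj Q κ A a k‖ ≤ κ :=
  norm_pj_le hκ (A a) k

end

/-! ### The two-parameter family `c H + d` -/

/-- `c H + d`. -/
noncomputable def UU (H : Matrix ι ι ℂ) (c d : ℝ) : Matrix ι ι ℂ :=
  (c : ℂ) • H + (d : ℂ) • (1 : Matrix ι ι ℂ)

section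

variable {H : Matrix ι ι ℂ}

lemma UU_sub (H : Matrix ι ι ℂ) (c d c' d' : ℝ) : UU H c d - UU H c' d' = UU H (c - c') (d - d') := by
  unfold UU
  push_cast
  rw [sub_smul, sub_smul]
  abel

lemma mbf_UU_left (Q H A : Matrix ι ι ℂ) (c d : ℝ) :
    mbf Q (UU H c d) A = c * mbf Q H A + d * mbf Q 1 A := by
  unfold UU
  rw [mbf_add_left, mbf_smul_left, mbf_smul_left]

lemma mbf_UU_right (Q H A : Matrix ι ι ℂ) (c d : ℝ) :
    mbf Q A (UU H c d) = c * mbf Q A H + d * mbf Q A 1 := by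
  unfold UU
  rw [mbf_add_right, mbf_smul_right, mbf_smul_right]

lemma H_mul_H (hH : Hᴴ = -H) (hHH : H * Hᴴ = 1) : H * H = -1 := by
  rw [hH, Matrix.mul_neg] at hHH
  rw [← hHH, neg_neg]

lemma fro_UU (hH : Hᴴ = -H) (hHH : H * Hᴴ = 1) (c d : ℝ) :
    fro (UU H c d) = (c ^ 2 + d ^ 2) * Fintype.card ι := by
  have h2 := H_mul_H hH hHH
  have e : UU H c d * (UU H c d)ᴴ = ((c ^ 2 + d ^ 2 : ℝ) : ℂ) • (1 : Matrix ι ι ℂ) := by
    unfold UU
    rw [Matrix.conjTranspose_add, Matrix.conjTranspose_smul, Matrix.conjTranspose_smul, hH,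
      Matrix.conjTranspose_one, Complex.star_def, Complex.conj_ofReal, Complex.conj_ofReal]
    simp only [Matrix.add_mul, Matrix.mul_add, Matrix.smul_mul, Matrix.mul_smul, Matrix.mul_neg,
      Matrix.mul_one, Matrix.one_mul, smul_add, smul_smul, smul_neg, h2]
    push_cast
    rw [add_smul]
    have : (c : ℂ) * d = d * c := mul_comm _ _
    rw [this, pow_two, pow_two]
    abel
  rw [fro_eq_trace, e, Matrix.trace_smul, Matrix.trace_one, smul_eq_mul, Complex.re_ofReal_mul]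
  simp

lemma mbf_one_H {Q : Matrix ι ι ℂ} (hQ : Q.IsHermitian) (hH : Hᴴ = -H) : mbf Q 1 H = 0 := by
  have h1 : mbf Q 1 H = -((Q * H).trace).re := by
    rw [mbf_eq_trace, Matrix.one_mul, hH, Matrix.mul_neg, Matrix.trace_neg, Complex.neg_re]
  have h2 : mbf Q 1 H = ((Q * H).trace).re := by
    rw [mbf_symm 1 H hQ, mbf_eq_trace, Matrix.conjTranspose_one, Matrix.mul_one,
      Matrix.trace_mul_comm]
  linarith

/-! ### Scalar estimates -/

section Scalar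

variable {a ε C S : ℝ}

lemma scal_one (ha : 0 < a) (haε : a ≤ ε / 4) (hε : ε ≤ 1 / 100) (hC : 1 - a ^ 2 / 2 ≤ C)
    (hC1 : C ≤ 1) (hS : a - a ^ 3 / 4 ≤ S) (hS1 : S ≤ a) :
    |1 - C| ≤ ε * a / 8 ∧ |a - S| ≤ ε * a / 16 ∧ |ε * S| ≤ ε * a ∧ |ε * (1 - C)| ≤ ε * a / 8 := by
  have hε0 : 0 < ε := by linarith
  have h1 : a ^ 2 ≤ ε / 4 * a := by nlinarith
  have h3 : a ^ 3 ≤ ε * a / 4 := by
    have : a ^ 3 = a * a ^ 2 := by ring
    nlinarith
  have h4 : 0 ≤ S := by nlinarith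
  refine ⟨?_, ?_, ?_, ?_⟩
  · rw [abs_le]; constructor <;> nlinarith
  · rw [abs_le]; constructor <;> nlinarith
  · rw [abs_of_nonneg (by positivity)]; nlinarith
  · rw [abs_of_nonneg (mul_nonneg hε0.le (by linarith))]
    nlinarith

lemma sq_le_of_abs_le' {x y : ℝ} (h : |x| ≤ y) : x ^ 2 ≤ y ^ 2 := by
  rw [← sq_abs x]
  exact pow_le_pow_left₀ (abs_nonneg _) h 2

lemma scal_two (ha : 0 < a) (haε : a ≤ ε / 4) (hε : ε ≤ 1 / 100) (hC : 1 - a ^ 2 / 2 ≤ C)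
    (hC1 : C ≤ 1) (hS : a - a ^ 3 / 4 ≤ S) (hS1 : S ≤ a) :
    (C - ε * S - 1) ^ 2 + (S + ε * C - ε - a) ^ 2 ≤ 4 * (ε * a) ^ 2 ∧
    (1 - (C + ε * S)) ^ 2 + (-ε - (S - ε * C) + a) ^ 2 ≤ 4 * (ε * a) ^ 2 ∧
    (1 - (C + ε * S)) ^ 2 + (ε - (S - ε * C)) ^ 2 ≤ 9 * ε ^ 2 ∧
    ((C + ε * S) - 1) ^ 2 + (S - ε * C) ^ 2 ≤ 4 * ε ^ 2 ∧
    17 / 10 * ε ≤ ε - (S - ε * C) := by
  have hε0 : 0 < ε := by linarith
  obtain ⟨h1, h2, h3, h4⟩ := scal_one ha haε hε hC hC1 hS hS1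
  rw [abs_le] at h1 h2 h3 h4
  have hp : 0 < ε * a := by positivity
  have hεa : ε * a ≤ ε / 100 := by nlinarith
  have hC0 : 0 ≤ C := by nlinarith
  have hεC : ε * C ≤ ε := by nlinarith
  have hεC0 : 0 ≤ ε * C := by positivity
  have hS0 : 0 ≤ S := by nlinarith
  have k1 : |C - ε * S - 1| ≤ 9 / 8 * (ε * a) := by rw [abs_le]; constructor <;> linarith
  have k2 : |S + ε * C - ε - a| ≤ 3 / 16 * (ε * a) := by rw [abs_le]; constructor <;> linarith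
  have k3 : |1 - (C + ε * S)| ≤ 9 / 8 * (ε * a) := by rw [abs_le]; constructor <;> linarith
  have k4 : |-ε - (S - ε * C) + a| ≤ 3 / 16 * (ε * a) := by rw [abs_le]; constructor <;> linarith
  have k5 : |ε - (S - ε * C)| ≤ 2 * ε := by rw [abs_le]; constructor <;> linarith
  have k6 : |(C + ε * S) - 1| ≤ 9 / 8 * (ε * a) := by rw [abs_le]; constructor <;> linarith
  have k7 : |S - ε * C| ≤ ε := by rw [abs_le]; constructor <;> linarith
  have k8 : 9 / 8 * (ε * a) ≤ ε := by linarith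
  have j1 := sq_le_of_abs_le' k1
  have j2 := sq_le_of_abs_le' k2
  have j3 := sq_le_of_abs_le' k3
  have j4 := sq_le_of_abs_le' k4
  have j5 := sq_le_of_abs_le' k5
  have j6 := sq_le_of_abs_le' k6
  have j7 := sq_le_of_abs_le' k7
  have j8 : (9 / 8 * (ε * a)) ^ 2 ≤ ε ^ 2 := pow_le_pow_left₀ (by positivity) k8 2
  have j9 : 0 ≤ (ε * a) ^ 2 := sq_nonneg _
  have j10 : 0 ≤ ε ^ 2 := sq_nonneg _
  refine ⟨?_, ?_, ?_, ?_, ?_⟩
  · have : (9 / 8 * (ε * a)) ^ 2 + (3 / 16 * (ε * a)) ^ 2 ≤ 4 * (ε * a) ^ 2 := by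
      have e : (9 / 8 * (ε * a)) ^ 2 + (3 / 16 * (ε * a)) ^ 2 = 333 / 256 * (ε * a) ^ 2 := by ring
      rw [e]; linarith
    linarith only [this, j1, j2]
  · have : (9 / 8 * (ε * a)) ^ 2 + (3 / 16 * (ε * a)) ^ 2 ≤ 4 * (ε * a) ^ 2 := by
      have e : (9 / 8 * (ε * a)) ^ 2 + (3 / 16 * (ε * a)) ^ 2 = 333 / 256 * (ε * a) ^ 2 := by ring
      rw [e]; linarith
    linarith only [this, j3, j4]
  · linarith only [j3, j5, j8, j10]
  · linarith only [j6, j7, j8, j10]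
  · linarith only [h4.2, hεa, hS1, haε, hε0]

end Scalar

/-! ### The gain at one level -/

/-- `B = X_a H` and the rest: the change of the level-`κ` functional. -/
theorem ends_level {M : Matrix ι ι ℂ} (hM : M.PosSemidef) (hH : Hᴴ = -H) (hHH : H * Hᴴ = 1)
    {κ ε a : ℝ} (ha : 0 < a) (haε : a ≤ ε / 4) (hε : ε ≤ 1 / 100) (hκ : κ ≤ ε / 20)
    (hent : ∀ x y, ‖H x y‖ ≤ κ) (hκ0 : 0 ≤ κ) (htr : M.trace.re ≤ Fintype.card ι / 100) :
    2 * a * ε * Fintype.card ι ≤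
      (mphi (met M) κ (UU H (Real.cos a - ε * Real.sin a) (Real.sin a + ε * Real.cos a)) -
       mphi (met M) κ (UU H (Real.cos a + ε * Real.sin a) (Real.sin a - ε * Real.cos a))) -
      (mphi (met M) κ (UU H 1 ε) - mphi (met M) κ (UU H 1 (-ε))) := by
  set Q := met M with hQdef
  have hQ : Q.PosSemidef := met_psd hM
  set C := Real.cos a with hCdef
  set S := Real.sin a with hSdef
  set N : ℝ := (Fintype.card ι : ℝ) with hN
  have hN0 : 0 ≤ N := by positivity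
  have hε0 : 0 < ε := by linarith
  have hC : 1 - a ^ 2 / 2 ≤ C := Real.one_sub_sq_div_two_le_cos
  have hC1 : C ≤ 1 := Real.cos_le_one a
  have hS1 : S ≤ a := Real.sin_le ha.le
  have hS : a - a ^ 3 / 4 ≤ S := by
    have h1 := Real.sin_gt_sub_cube ha
    have h2 : 0 ≤ a ^ 3 := by positivity
    linarith
  obtain ⟨s1, s2, s3, s4, s5⟩ := scal_two ha haε hε hC hC1 hS hS1
  set Um := UU H (C - ε * S) (S + ε * C) with hUm
  set Vm := UU H (C + ε * S) (S - ε * C) with hVm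
  set U0 := UU H 1 ε with hU0
  set V0 := UU H 1 (-ε) with hV0
  set Y := mpj Q κ U0 with hY
  set Z := mpj Q κ Vm with hZ
  -- subgradient inequalities
  have g1 := mphi_subgrad hQ hκ0 U0 Um
  have g2 := mphi_subgrad hQ hκ0 Vm V0
  rw [← hY] at g1
  rw [← hZ] at g2
  -- the first difference
  have d1 : Um - U0 = UU H (C - ε * S - 1) (S + ε * C - ε) := UU_sub _ _ _ _ _
  have d2 : V0 - Vm = UU H (1 - (C + ε * S)) (-ε - (S - ε * C)) := UU_sub _ _ _ _ _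
  have d3 : U0 - Vm = UU H (1 - (C + ε * S)) (ε - (S - ε * C)) := UU_sub _ _ _ _ _
  -- norms of the residuals
  have r1 : mbf Q (U0 - Y) (U0 - Y) ≤ ε ^ 2 * N := by
    rw [hY, ← mphi_eq]
    refine (mphi_le hκ0 U0 H hent).trans ?_
    have e : U0 - H = UU H 0 ε := by
      rw [hU0]; unfold UU; simp
    rw [e]
    refine (mbf_met_le_fro hM _).trans (le_of_eq ?_)
    rw [fro_UU hH hHH]; ring
  have r2 : mbf Q (Vm - Z) (Vm - Z) ≤ 4 * ε ^ 2 * N := by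
    rw [hZ, ← mphi_eq]
    refine (mphi_le hκ0 Vm H hent).trans ?_
    have e : Vm - H = UU H (C + ε * S - 1) (S - ε * C) := by
      have h1 : UU H 1 0 = H := by unfold UU; simp
      calc Vm - H = Vm - UU H 1 0 := by rw [h1]
        _ = _ := by rw [hVm, UU_sub, sub_zero]
    rw [e]
    refine (mbf_met_le_fro hM _).trans ?_
    rw [fro_UU hH hHH]
    exact mul_le_mul_of_nonneg_right s4 hN0
  -- error terms
  have e1 : 2 * |mbf Q (UU H (C - ε * S - 1) (S + ε * C - ε - a)) (U0 - Y)| ≤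
      5 * ε ^ 2 * a * N := by
    have h := two_abs_mbf_le (UU H (C - ε * S - 1) (S + ε * C - ε - a)) (U0 - Y) hQ
      (inv_pos.2 ha)
    have h2 : mbf Q (UU H (C - ε * S - 1) (S + ε * C - ε - a))
        (UU H (C - ε * S - 1) (S + ε * C - ε - a)) ≤ 4 * (ε * a) ^ 2 * N := by
      refine (mbf_met_le_fro hM _).trans ?_
      rw [fro_UU hH hHH]
      exact mul_le_mul_of_nonneg_right s1 hN0
    rw [inv_inv] at h
    have h3 : a⁻¹ * mbf Q (UU H (C - ε * S - 1) (S + ε * C - ε - a))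
        (UU H (C - ε * S - 1) (S + ε * C - ε - a)) ≤ a⁻¹ * (4 * (ε * a) ^ 2 * N) :=
      mul_le_mul_of_nonneg_left h2 (inv_pos.2 ha).le
    have h4 : a⁻¹ * (4 * (ε * a) ^ 2 * N) = 4 * ε ^ 2 * a * N := by
      field_simp
    have h5 := mul_le_mul_of_nonneg_left r1 ha.le
    linarith
  have e2 : 2 * |mbf Q (UU H (1 - (C + ε * S)) (-ε - (S - ε * C) + a)) (Vm - Z)| ≤
      8 * ε ^ 2 * a * N := by
    have h := two_abs_mbf_le (UU H (1 - (C + ε * S)) (-ε - (S - ε * C) + a)) (Vm - Z) hQ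
      (inv_pos.2 ha)
    have h2 : mbf Q (UU H (1 - (C + ε * S)) (-ε - (S - ε * C) + a))
        (UU H (1 - (C + ε * S)) (-ε - (S - ε * C) + a)) ≤ 4 * (ε * a) ^ 2 * N := by
      refine (mbf_met_le_fro hM _).trans ?_
      rw [fro_UU hH hHH]
      exact mul_le_mul_of_nonneg_right s2 hN0
    rw [inv_inv] at h
    have h3 : a⁻¹ * mbf Q (UU H (1 - (C + ε * S)) (-ε - (S - ε * C) + a))
        (UU H (1 - (C + ε * S)) (-ε - (S - ε * C) + a)) ≤ a⁻¹ * (4 * (ε * a) ^ 2 * N) :=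
      mul_le_mul_of_nonneg_left h2 (inv_pos.2 ha).le
    have h4 : a⁻¹ * (4 * (ε * a) ^ 2 * N) = 4 * ε ^ 2 * a * N := by
      field_simp
    have h5 := mul_le_mul_of_nonneg_left r2 ha.le
    linarith
  -- the projections
  have p1 : mbf Q (Y - Z) (Y - Z) ≤ 9 * ε ^ 2 * N := by
    refine (mpj_lipschitz hQ hκ0 U0 Vm).trans ?_
    rw [d3]
    refine (mbf_met_le_fro hM _).trans ?_
    rw [fro_UU hH hHH]
    exact mul_le_mul_of_nonneg_right s3 hN0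
  have p2 : |((Y - Z).trace).re| ≤ 2 * κ * N := by
    rw [Matrix.trace, Complex.re_sum]
    refine (Finset.abs_sum_le_sum_abs _ _).trans ?_
    have : ∀ x ∈ (Finset.univ : Finset ι), |((Y - Z).diag x).re| ≤ 2 * κ := by
      intro x _
      refine (Complex.abs_re_le_norm _).trans ?_
      have h1 : ‖Y x x‖ ≤ κ := norm_mpj_le hκ0 U0 x x
      have h2 : ‖Z x x‖ ≤ κ := norm_mpj_le hκ0 Vm x x
      calc ‖(Y - Z) x x‖ = ‖Y x x - Z x x‖ := rfl
        _ ≤ ‖Y x x‖ + ‖Z x x‖ := norm_sub_le _ _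
        _ ≤ 2 * κ := by linarith
    refine (Finset.sum_le_sum this).trans (le_of_eq ?_)
    rw [Finset.sum_const, Finset.card_univ, nsmul_eq_mul]; ring
  have p3 : |mbf Q M (Y - Z)| ≤ 3 / 10 * ε * N := by
    have h := two_abs_mbf_le M (Y - Z) hQ (s := 30 * ε) (by positivity)
    have h1 : mbf Q M M ≤ N / 100 := (mbf_M_M_le hM).trans htr
    have h2 : 30 * ε * mbf Q M M ≤ 30 * ε * (N / 100) :=
      mul_le_mul_of_nonneg_left h1 (by positivity)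
    have h3 : (30 * ε)⁻¹ * mbf Q (Y - Z) (Y - Z) ≤ (30 * ε)⁻¹ * (9 * ε ^ 2 * N) :=
      mul_le_mul_of_nonneg_left p1 (by positivity)
    have h4 : (30 * ε)⁻¹ * (9 * ε ^ 2 * N) = 3 / 10 * ε * N := by
      field_simp; ring
    linarith
  have p4 : mbf Q 1 (Y - Z) = ((Y - Z).trace).re - mbf Q M (Y - Z) := mbf_one_left hM _
  -- main term
  have m1 : mbf Q 1 (U0 - Vm) = (ε - (S - ε * C)) * mbf Q 1 1 := by
    rw [d3, mbf_UU_right, mbf_one_H hQ.isHermitian hH, mul_zero, zero_add]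
  have m2 : 99 / 100 * N ≤ mbf Q 1 1 := by
    have := le_mbf_one_one hM
    linarith
  have m3 : 17 / 10 * ε * (99 / 100 * N) ≤ mbf Q 1 (U0 - Vm) := by
    rw [m1]
    exact mul_le_mul s5 m2 (by positivity) (by linarith)
  have m4 : mbf Q 1 (U0 - Y) - mbf Q 1 (Vm - Z) = mbf Q 1 (U0 - Vm) - mbf Q 1 (Y - Z) := by
    rw [mbf_sub_right, mbf_sub_right, mbf_sub_right, mbf_sub_right]
    ring
  have q1 : mbf Q (Um - U0) (U0 - Y) = a * mbf Q 1 (U0 - Y) +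
      mbf Q (UU H (C - ε * S - 1) (S + ε * C - ε - a)) (U0 - Y) := by
    rw [d1, mbf_UU_left, mbf_UU_left]
    ring
  have q2 : mbf Q (V0 - Vm) (Vm - Z) = -(a * mbf Q 1 (Vm - Z)) +
      mbf Q (UU H (1 - (C + ε * S)) (-ε - (S - ε * C) + a)) (Vm - Z) := by
    rw [d2, mbf_UU_left, mbf_UU_left]
    ring
  rw [q1] at g1
  rw [q2] at g2
  have a1 := neg_abs_le (mbf Q (UU H (C - ε * S - 1) (S + ε * C - ε - a)) (U0 - Y))
  have a2 := neg_abs_le (mbf Q (UU H (1 - (C + ε * S)) (-ε - (S - ε * C) + a)) (Vm - Z))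
  rw [abs_le] at p2 p3
  have hκN : 2 * κ * N ≤ ε / 10 * N := mul_le_mul_of_nonneg_right (by linarith) hN0
  have t1 : 12 / 10 * ε * N ≤ mbf Q 1 (U0 - Y) - mbf Q 1 (Vm - Z) := by
    rw [m4, p4]
    have : 0 ≤ ε * N := by positivity
    linarith [p2.1, p2.2, p3.1, p3.2]
  have t2 : a * (12 / 10 * ε * N) ≤ a * (mbf Q 1 (U0 - Y) - mbf Q 1 (Vm - Z)) :=
    mul_le_mul_of_nonneg_left t1 ha.le
  have t3 : 13 * ε ^ 2 * a * N ≤ 13 / 100 * ε * a * N := by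
    have h1 : 0 ≤ ε * a * N := by positivity
    have h2 := mul_le_mul_of_nonneg_right hε h1
    linarith only [h2]
  have t4 : 0 ≤ ε * a * N := by positivity
  linarith only [g1, g2, a1, a2, e1, e2, t2, t3, t4]

end

end RotFourier.H31
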