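import Mathlib
import Pool.Agent.Lib.MP_7fb13b_lc.H9.Circuit
import Pool.Agent.Lib.MP_7fb13b_lc.H31.Dom
import Pool.Agent.Lib.MP_7fb13b_lc.H31.Ends

/-!
# MP_7fb13b_lc (H31) : the lower bound `c α^(2/3) n log n`
-/

open Matrix
open scoped ComplexOrder

set_option linter.unusedSectionVars false

namespace RotFourier.H31

variable {ι : Type*} [Fintype ι] [DecidableEq ι]

/-! ### The potential along a circuit -/

section Chain

variable {P R : ℕ → Matrix ι ι ℂ} {i j : ℕ → ι} {m : ℕ}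

lemma chain_unitary (h0 : P 0 = 1) (h2 : ∀ t < m, IsTwo (R t) (i t) (j t))
    (hs : ∀ t < m, P (t + 1) = R t * P t) : ∀ t ≤ m, P t ∈ Matrix.unitaryGroup ι ℂ := by
  intro t
  induction t with
  | zero => intro _; rw [h0]; exact one_mem _
  | succ t ih =>
    intro ht
    rw [hs t (by omega)]
    exact mul_mem (h2 t (by omega)).unit (ih (by omega))

/-- Upper bound for the potential after `t` gates. -/
theorem pot_upper {M : Matrix ι ι ℂ} (hM : M.PosSemidef) {κ : ℕ → ℝ} {K : ℕ} {ε lam : ℝ}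
    {w : ℝ → ℝ} {H : Matrix ι ι ℂ}
    (hκ : ∀ r, 0 ≤ κ r) (hκ2 : ∀ r, 2 * κ r ^ 2 ≤ κ (r + 1) ^ 2)
    (h0 : P 0 = 1) (h2 : ∀ t < m, IsTwo (R t) (i t) (j t))
    (hs : ∀ t < m, P (t + 1) = R t * P t)
    (hx : ∀ t ≤ m, ∀ a, qf (met M) (trM w (P t * H) a) ≤ lam)
    (hw : ∀ x : ℂ, ‖x - tr w x‖ ≤ κ 0) :
    TT (met M) κ K ε (P m) (P m * H) ≤ TT (met M) κ K ε (P 0) (P 0 * H) +
      m * (8 * (lam + ε ^ 2)) := by
  have hU := chain_unitary h0 h2 hs
  have row : ∀ t ≤ m, ∀ a, ∀ σ : ℝ, σ ^ 2 = ε ^ 2 →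
      phi (met M) (κ 0) ((P t * H) a + (σ : ℂ) • P t a) ≤ 2 * (lam + ε ^ 2) := by
    intro t ht a σ hσ
    have ha : ∑ k, ‖P t a k‖ ^ 2 ≤ 1 := (rowSq_unitary (hU t ht) a).le
    exact phi_row_le hM (hκ 0) ha (hx t ht a) (fun k => hw _) hσ
  have key : ∀ t ≤ m, TT (met M) κ K ε (P t) (P t * H) ≤ TT (met M) κ K ε (P 0) (P 0 * H) +
      t * (8 * (lam + ε ^ 2)) := by
    intro t
    induction t with
    | zero => intro _; simp
    | succ t ih =>
      intro ht
      have h1 := ih (by omega)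
      have h3 := TT_gate (K := K) (met_psd hM) (h2 t (by omega)) hκ hκ2 ε (P t) (P t * H)
      have e1 : R t * (P t * H) = P (t + 1) * H := by
        rw [hs t (by omega), Matrix.mul_assoc]
      rw [← hs t (by omega), e1] at h3
      have e2 : ∀ (X Y : Matrix ι ι ℂ) (c : ℂ) (a : ι), (X + c • Y) a = X a + c • Y a :=
        fun _ _ _ _ => rfl
      have e3 : ∀ (X Y : Matrix ι ι ℂ) (a : ι),
          (X - (ε : ℂ) • Y) a = X a + ((-ε : ℝ) : ℂ) • Y a := by
        intro X Y a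
        have : (X - (ε : ℂ) • Y) a = X a - (ε : ℂ) • Y a := rfl
        rw [this, Complex.ofReal_neg, neg_smul, sub_eq_add_neg]
      rw [e2, e2, e3, e3] at h3
      have r1 := row t (by omega) (i t) ε rfl
      have r2 := row t (by omega) (j t) ε rfl
      have r3 := row (t + 1) ht (i t) (-ε) (by ring)
      have r4 := row (t + 1) ht (j t) (-ε) (by ring)
      push_cast at *
      linarith
  exact key m le_rfl

end Chain

/-! ### The general bound -/

/-- The bound for a circuit of `cos α - sin α H`, where `H` is skew-Hermitian, unitary and flat. -/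
theorem main_abstract {P R : ℕ → Matrix ι ι ℂ} {i j : ℕ → ι} {m : ℕ} {H : Matrix ι ι ℂ}
    {ε ℓ : ℝ} (h0 : P 0 = 1) (h2 : ∀ t < m, IsTwo (R t) (i t) (j t))
    (hs : ∀ t < m, P (t + 1) = R t * P t) (hH : Hᴴ = -H) (hHH : H * Hᴴ = 1)
    (hPm : P m = ((Real.cos (ε ^ 3) : ℝ) : ℂ) • (1 : Matrix ι ι ℂ) -
      ((Real.sin (ε ^ 3) : ℝ) : ℂ) • H)
    (hent : ∀ x y, ‖H x y‖ ≤ Real.exp (-ℓ / 2))
    (hε0 : 0 < ε) (hε : ε ≤ 1 / 100) (hℓ : 16 ≤ ℓ) (hsmall : Real.exp (-ℓ / 8) ≤ ε / 20) :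
    1 / 700000 * ε ^ 2 * (Fintype.card ι * ℓ) ≤ m := by
  have hℓ0 : 0 < ℓ := by linarith
  set N : ℝ := (Fintype.card ι : ℝ) with hN
  have hN0 : 0 ≤ N := by positivity
  set α : ℝ := ε ^ 3 with hα
  have hα0 : 0 < α := by positivity
  have hαε : α ≤ ε / 4 := by
    have : ε ^ 3 = ε * ε ^ 2 := by ring
    rw [hα, this]
    nlinarith [sq_nonneg ε]
  -- the weight
  set w := ramp 3 (ℓ / 8) with hwdef
  have hw : IsWt (1 / (ℓ / 8)) w := ramp_isWt (by positivity)
  -- the radii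
  set κ : ℕ → ℝ := fun r => Real.exp (-(3 * ℓ / 8)) * Real.sqrt 2 ^ r with hκdef
  have hκ0 : ∀ r, 0 ≤ κ r := fun r => by positivity
  have hκ2 : ∀ r, 2 * κ r ^ 2 ≤ κ (r + 1) ^ 2 := by
    intro r
    have : κ (r + 1) ^ 2 = κ r ^ 2 * Real.sqrt 2 ^ 2 := by
      simp only [hκdef]; ring
    rw [this, Real.sq_sqrt (by norm_num)]
    linarith
  set K : ℕ := ⌊ℓ / 2⌋₊ with hK
  have hK1 : (K : ℝ) ≤ ℓ / 2 := Nat.floor_le (by positivity)
  have hK2 : ℓ / 4 ≤ (K : ℝ) := by
    have := Nat.lt_floor_add_one (ℓ / 2)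
    rw [← hK] at this
    linarith
  have hs2 : Real.sqrt 2 ≤ Real.exp (1 / 2) := by
    rw [Real.sqrt_le_left (by positivity), ← Real.exp_nat_mul]
    have := Real.add_one_le_exp (1 : ℝ)
    norm_num
    linarith
  have hs1 : 1 ≤ Real.sqrt 2 := by
    rw [Real.one_le_sqrt]; norm_num
  have hκle : ∀ r ≤ K, κ r ≤ ε / 20 := by
    intro r hr
    refine le_trans ?_ hsmall
    have h1 : Real.sqrt 2 ^ r ≤ Real.exp (ℓ / 4) := by
      calc Real.sqrt 2 ^ r ≤ Real.sqrt 2 ^ K := pow_le_pow_right₀ hs1 hr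
        _ ≤ Real.exp (1 / 2) ^ K := pow_le_pow_left₀ (by positivity) hs2 K
        _ = Real.exp (K * (1 / 2)) := by rw [Real.exp_nat_mul]
        _ ≤ Real.exp (ℓ / 4) := Real.exp_le_exp.2 (by linarith)
    calc κ r ≤ Real.exp (-(3 * ℓ / 8)) * Real.exp (ℓ / 4) :=
          mul_le_mul_of_nonneg_left h1 (Real.exp_pos _).le
      _ = Real.exp (-ℓ / 8) := by rw [← Real.exp_add]; congr 1; ring
  have hκge : ∀ r, Real.exp (-(3 * ℓ / 8)) ≤ κ r := by
    intro r
    have : 1 ≤ Real.sqrt 2 ^ r := one_le_pow₀ hs1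
    calc Real.exp (-(3 * ℓ / 8)) = Real.exp (-(3 * ℓ / 8)) * 1 := (mul_one _).symm
      _ ≤ _ := mul_le_mul_of_nonneg_left this (Real.exp_pos _).le
  have hentκ : ∀ r x y, ‖H x y‖ ≤ κ r := by
    intro r x y
    refine (hent x y).trans (le_trans ?_ (hκge r))
    exact Real.exp_le_exp.2 (by linarith)
  -- unitarity
  have hHu : H ∈ Matrix.unitaryGroup ι ℂ := Matrix.mem_unitaryGroup_iff.2 hHH
  have hU := chain_unitary h0 h2 hs
  have hrow : ∀ t ≤ m, ∀ a, rowSq (P t * H) a ≤ 1 := by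
    intro t ht a
    rw [rowSq_mul_unitary hHu, rowSq_unitary (hU t ht)]
  -- domination
  have hB0 : trM w (P 0 * H) = 0 := by
    rw [h0, Matrix.one_mul]
    ext x y
    rw [trM_apply, Matrix.zero_apply]
    by_cases hxy : H x y = 0
    · rw [hxy, tr_zero]
    · apply IsWt.tr_of_zero
      rw [hwdef]
      apply ramp_zero (by positivity)
      have h1 : Real.log ‖H x y‖ ≤ -ℓ / 2 := by
        rw [Real.log_le_iff_le_exp (norm_pos_iff.2 hxy)]
        exact hent x y
      linarith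
  obtain ⟨W, hW, hWtr, hdom⟩ := exists_dom (B := fun t => P t * H) (R := R) (i := i) (j := j) hw
    (δ := ℓ⁻¹) (by positivity) hB0 m h2
    (fun t ht => by
      show P (t + 1) * H = R t * (P t * H)
      rw [hs t ht, Matrix.mul_assoc])
    hrow
  rw [inv_inv] at hWtr
  have hWtr2 : W.trace.re ≤ m * (6402 / ℓ) := by
    refine hWtr.trans (mul_le_mul_of_nonneg_left ?_ (by positivity))
    have e : 2 * ℓ⁻¹ + (1 + ℓ) * (2 * (5 * (1 / (ℓ / 8))) ^ 2) =
        (2 + 3200 * ((1 + ℓ) / ℓ)) / ℓ := by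
      field_simp; ring
    rw [e]
    apply div_le_div_of_nonneg_right _ hℓ0.le
    have : (1 + ℓ) / ℓ ≤ 2 := by
      rw [div_le_iff₀ hℓ0]; linarith
    linarith
  -- the metric
  set lam : ℝ := ε ^ 2 with hlam
  have hlam0 : 0 < lam := by positivity
  set M : Matrix ι ι ℂ := ((lam⁻¹ : ℝ) : ℂ) • W with hMdef
  have hM : M.PosSemidef := psd_smul (by positivity) hW
  have hMtr : M.trace.re = lam⁻¹ * W.trace.re := by
    rw [hMdef, Matrix.trace_smul, smul_eq_mul, Complex.re_ofReal_mul]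
  by_cases hcase : M.trace.re ≤ N / 100
  · -- the potential argument
    have hx : ∀ t ≤ m, ∀ a, qf (met M) (trM w (P t * H) a) ≤ lam := by
      intro t ht a
      refine qf_le_of_dom hM hlam0.le _ fun v => ?_
      refine (row_dot_le _ a v).trans ((hdom t ht v).trans (le_of_eq ?_))
      have : cf M v = lam⁻¹ * cf W v := by rw [hMdef, cf_smul]
      change cf W v = lam * cf M v
      rw [this, ← mul_assoc, mul_inv_cancel₀ hlam0.ne', one_mul]
    have hwκ : ∀ x : ℂ, ‖x - tr w x‖ ≤ κ 0 := by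
      intro x
      have h1 := hw.norm_sub_tr_le (Real.exp_pos (-(3 * ℓ / 8)))
        (fun u hu => by
          rw [Real.log_exp] at hu
          rw [hwdef]
          apply ramp_one (by positivity)
          linarith) x
      refine h1.trans ?_
      have h3 : 1 / (ℓ / 8) ≤ 1 := by
        rw [div_le_one (by positivity)]; linarith
      have h4 : κ 0 = 1 * Real.exp (-(3 * ℓ / 8)) := by simp [hκdef]
      rw [h4]
      exact mul_le_mul_of_nonneg_right h3 (Real.exp_pos _).le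
    have hup := pot_upper (K := K) (ε := ε) (m := m) (H := H) (w := w) hM hκ0 hκ2 h0 h2 hs hx hwκ
    -- lower bound, level by level
    have hlow : K * (2 * α * ε * N) ≤ TT (met M) κ K ε (P m) (P m * H) -
        TT (met M) κ K ε (P 0) (P 0 * H) := by
      have hHH2 := H_mul_H hH hHH
      have eP : P m * H = UU H (Real.cos α) (Real.sin α) := by
        rw [hPm, Matrix.sub_mul, Matrix.smul_mul, Matrix.smul_mul, Matrix.one_mul, hHH2]
        unfold UU
        rw [smul_neg, sub_neg_eq_add]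
      have e1 : P m * H + (ε : ℂ) • P m =
          UU H (Real.cos α - ε * Real.sin α) (Real.sin α + ε * Real.cos α) := by
        rw [eP, hPm]
        unfold UU
        rw [smul_sub, smul_smul, smul_smul]
        push_cast
        rw [sub_smul, add_smul]
        abel
      have e2 : P m * H - (ε : ℂ) • P m =
          UU H (Real.cos α + ε * Real.sin α) (Real.sin α - ε * Real.cos α) := by
        rw [eP, hPm]
        unfold UU
        rw [smul_sub, smul_smul, smul_smul]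
        push_cast
        rw [sub_smul, add_smul]
        abel
      have e3 : P 0 * H + (ε : ℂ) • P 0 = UU H 1 ε := by
        rw [h0, Matrix.one_mul]
        unfold UU
        simp
      have e4 : P 0 * H - (ε : ℂ) • P 0 = UU H 1 (-ε) := by
        rw [h0, Matrix.one_mul]
        unfold UU
        push_cast
        rw [one_smul, neg_smul, sub_eq_add_neg]
      unfold TT
      rw [e1, e2, e3, e4, MPhi_eq, MPhi_eq, MPhi_eq, MPhi_eq, ← Finset.sum_sub_distrib,
        ← Finset.sum_sub_distrib, ← Finset.sum_sub_distrib]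
      have h5 : ∑ _r ∈ Finset.range K, (2 * α * ε * N) = K * (2 * α * ε * N) := by
        rw [Finset.sum_const, Finset.card_range, nsmul_eq_mul]
      rw [← h5]
      refine Finset.sum_le_sum fun r hr => ?_
      rw [Finset.mem_range] at hr
      exact ends_level hM hH hHH hα0 hαε hε (hκle (r + 1) (by omega)) (hentκ (r + 1))
        (hκ0 (r + 1)) hcase
    -- conclusion
    have h6 : (K : ℝ) * (2 * α * ε * N) ≤ m * (8 * (lam + ε ^ 2)) := by linarith
    have h7 : ℓ / 4 * (2 * α * ε * N) ≤ m * (8 * (lam + ε ^ 2)) :=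
      (mul_le_mul_of_nonneg_right hK2 (by positivity)).trans h6
    have h8 : ℓ / 4 * (2 * α * ε * N) = ε ^ 2 * (ε ^ 2 * N * ℓ / 2) := by
      rw [hα]; ring
    have h9 : (m : ℝ) * (8 * (lam + ε ^ 2)) = ε ^ 2 * (16 * m) := by
      rw [hlam]; ring
    rw [h8, h9] at h7
    have h10 := le_of_mul_le_mul_left h7 (by positivity)
    have h11 : 0 ≤ ε ^ 2 * N * ℓ := by positivity
    linarith
  · push Not at hcase
    rw [hMtr] at hcase
    have h1 : lam⁻¹ * W.trace.re ≤ lam⁻¹ * (m * (6402 / ℓ)) :=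
      mul_le_mul_of_nonneg_left hWtr2 (by positivity)
    have h2' : N / 100 < lam⁻¹ * (m * (6402 / ℓ)) := lt_of_lt_of_le hcase h1
    have h3 : lam⁻¹ * (m * (6402 / ℓ)) = 6402 * m / (lam * ℓ) := by field_simp
    rw [h3, lt_div_iff₀ (by positivity)] at h2'
    have h4 : 0 ≤ lam * ℓ * N := by positivity
    have e : 1 / 700000 * ε ^ 2 * (N * ℓ) = 1 / 700000 * (lam * ℓ * N) := by rw [hlam]; ring
    rw [e]
    have e2 : N / 100 * (lam * ℓ) = 1 / 100 * (lam * ℓ * N) := by ring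
    rw [e2] at h2'
    linarith

/-! ### The Fourier matrix -/

/-- The lower bound with exponent `2/3`. -/
theorem main_bound : ∃ c : ℝ, 0 < c ∧ ∃ α₀ : ℝ, 0 < α₀ ∧ ∀ α : ℝ, 0 < α → α ≤ α₀ →
    ∀ n : ℕ, 2 ≤ n → ∀ l : List (Matrix (Fin n ⊕ Fin n) (Fin n ⊕ Fin n) ℂ),
      (∀ R ∈ l, IsTwoCoordinate R) → l.prod = rotX n α →
        c * α ^ (2 / 3 : ℝ) * (n * Real.log n) ≤ l.length := by
  refine ⟨1 / 700000, by norm_num, (1 / 100) ^ 3, by norm_num, ?_⟩
  intro α hα hα1 n hn l hl hp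
  have hn0 : 0 < n := by omega
  have hnpos : (0 : ℝ) < n := by exact_mod_cast hn0
  set ε : ℝ := α ^ (1 / 3 : ℝ) with hεdef
  have hε0 : 0 < ε := Real.rpow_pos_of_pos hα _
  have hε3 : ε ^ 3 = α := by
    rw [hεdef, ← Real.rpow_natCast, ← Real.rpow_mul hα.le]
    norm_num
  have hε2 : α ^ (2 / 3 : ℝ) = ε ^ 2 := by
    rw [hεdef, ← Real.rpow_natCast, ← Real.rpow_mul hα.le]
    norm_num
  have hε : ε ≤ 1 / 100 := by
    rw [← hε3] at hα1
    exact le_of_pow_le_pow_left₀ (by norm_num) (by norm_num) hα1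
  set ℓ : ℝ := Real.log n with hℓ
  have hℓ0 : 0 ≤ ℓ := Real.log_natCast_nonneg n
  have htriv := trivial_bound hn hα (by linarith [show ((1 : ℝ) / 100) ^ 3 ≤ 1 by norm_num]) l hl hp
  have htriv' : (n : ℝ) ≤ l.length := by exact_mod_cast htriv
  rw [hε2]
  by_cases hcase : ε ^ 2 * ℓ ≤ 1
  · have h1 : ε ^ 2 * ((n : ℝ) * ℓ) ≤ n := by
      calc ε ^ 2 * ((n : ℝ) * ℓ) = (ε ^ 2 * ℓ) * n := by ring
        _ ≤ 1 * (n : ℝ) := mul_le_mul_of_nonneg_right hcase hnpos.le
        _ = n := one_mul _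
    have h2 : 0 ≤ ε ^ 2 * (n * ℓ) := by positivity
    linarith
  · push Not at hcase
    -- `ℓ` is large
    have hε2' : ε ^ 2 ≤ 1 / 10000 := by
      have := pow_le_pow_left₀ hε0.le hε 2
      norm_num at this ⊢
      exact this
    have hℓbig : 10000 ≤ ℓ := by
      by_contra hcon
      push Not at hcon
      have : ε ^ 2 * ℓ ≤ 1 / 10000 * 10000 :=
        mul_le_mul hε2' hcon.le hℓ0 (by norm_num)
      linarith
    have hℓp : 0 < ℓ := by linarith
    have hsmall : Real.exp (-ℓ / 8) ≤ ε / 20 := by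
      have h1 : (ℓ / 8) ^ 2 / 2 ≤ Real.exp (ℓ / 8) := by
        have := Real.quadratic_le_exp_of_nonneg (show (0 : ℝ) ≤ ℓ / 8 by positivity)
        have h3 : 0 ≤ ℓ / 8 := by positivity
        linarith
      have h2 : 20 ≤ ε * ((ℓ / 8) ^ 2 / 2) := by
        -- `ε² ℓ > 1`, hence `ε ℓ ≥ 100`
        have h3 : 1 ≤ ε * (ε * ℓ) := by nlinarith
        have h4 : 100 ≤ ε * ℓ := by
          by_contra hcon
          push Not at hcon
          have h5 : ε * (ε * ℓ) < ε * 100 := mul_lt_mul_of_pos_left hcon hε0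
          linarith
        have h5 : ε * ((ℓ / 8) ^ 2 / 2) = (ε * ℓ) * ℓ / 128 := by ring
        rw [h5]
        nlinarith
      have h6 : 20 ≤ ε * Real.exp (ℓ / 8) := h2.trans (mul_le_mul_of_nonneg_left h1 hε0.le)
      have h7 : Real.exp (-ℓ / 8) = (Real.exp (ℓ / 8))⁻¹ := by
        rw [← Real.exp_neg]; congr 1; ring
      rw [h7, inv_le_iff_one_le_mul₀ (Real.exp_pos _)]
      linarith
    have : Nonempty (Fin n ⊕ Fin n) := ⟨Sum.inl ⟨0, hn0⟩⟩
    obtain ⟨P, R, i, j, h0, h2, hs, hm⟩ := exists_chain l hl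
    have hGG := rotG_mul_conjTranspose hn0
    have hGs := rotG_conjTranspose n
    have hmain := main_abstract (ι := Fin n ⊕ Fin n) (m := l.length) (H := (rotG n)ᴴ) (ε := ε)
      (ℓ := ℓ) h0 h2 hs (by rw [Matrix.conjTranspose_conjTranspose, hGs, neg_neg])
      (by rw [Matrix.conjTranspose_conjTranspose, hGs, Matrix.neg_mul, rotG_mul_self hn0, neg_neg])
      (by rw [hm, hp, hε3, rotX, hGs, smul_neg, sub_neg_eq_add])
      (by
        intro x y
        rw [Matrix.conjTranspose_apply, norm_star]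
        have h3 := rotG_norm_sq_le hn0 y x
        have h4 : (1 : ℝ) / n = Real.exp (-ℓ / 2) ^ 2 := by
          rw [← Real.exp_nat_mul, hℓ]
          push_cast
          rw [show (2 : ℝ) * (-Real.log n / 2) = -Real.log n by ring, Real.exp_neg,
            Real.exp_log hnpos, one_div]
        rw [h4] at h3
        exact le_of_sq_le_sq h3 (Real.exp_pos _).le)
      hε0 hε (by linarith) hsmall
    rw [Fintype.card_sum, Fintype.card_fin] at hmain
    push_cast at hmain
    have h9 : 0 ≤ ε ^ 2 * (n * ℓ) := by positivity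
    have e : 1 / 700000 * ε ^ 2 * (((n : ℝ) + n) * ℓ) = 2 * (1 / 700000 * (ε ^ 2 * (n * ℓ))) := by
      ring
    rw [e] at hmain
    linarith

end RotFourier.H31
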